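import Pool.Agent.Helper72.LS.L1

/-!
Piece P6: the fourth identity around a vertex and the nonnegativity of the cost.
-/

namespace Pool.Agent.Helper87.LS

open Finset
open scoped Classical
open Pool.Agent.Helper72.LS

theorem ad_symm {V : Type} [Fintype V] (G : SimpleGraph V) (x y : V) : ad G x y = ad G y x := by
  unfold ad
  by_cases h : G.Adj x y
  · rw [if_pos h, if_pos h.symm]
  · rw [if_neg h, if_neg (fun h' => h h'.symm)]

theorem sum_row {V : Type} [Fintype V] (G : SimpleGraph V) (v : V) :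
    ∑ x, ∑ y, ad G v y * ad G x y = ∑ x, ∑ y, ad G v x * ad G x y := by
  rw [Finset.sum_comm]
  refine Finset.sum_congr rfl fun x _ => ?_
  refine Finset.sum_congr rfl fun y _ => ?_
  rw [ad_symm G y x]

theorem eI_PH_expand {V : Type} [Fintype V] (G : SimpleGraph V) (v : V) :
    2 * eI G (PH G v) = 2 * em G - 2 * (∑ x, ∑ y, ad G v x * ad G x y)
      + 2 * eI G (NG G v) := by
  rw [two_eI_PH, two_eI_NG, two_em]
  have h : ∀ x, ∀ y, (1 - ad G v x) * (1 - ad G v y) * ad G x y
      = ad G x y - ad G v x * ad G x y - ad G v y * ad G x y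
        + ad G v x * ad G v y * ad G x y := fun x y => by ring
  simp only [h, Finset.sum_add_distrib, Finset.sum_sub_distrib]
  rw [sum_row G v]
  ring

theorem sum_Nx_expand {V : Type} [Fintype V] (G : SimpleGraph V) (v : V) :
    ∑ x ∈ NG G v, Nx G v x = dg G v * ((Fintype.card V : ℤ) - dg G v)
      - (∑ x, ∑ y, ad G v x * ad G x y) + 2 * eI G (NG G v) := by
  rw [two_eI_NG, sum_NG]
  have h1 : ∀ x, ad G v x * Nx G v x = ∑ y, (ad G v x * (1 - ad G v y)
      - ad G v x * ad G x y + ad G v x * ad G v y * ad G x y) := by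
    intro x
    unfold Nx
    rw [sum_PH, Finset.mul_sum]
    refine Finset.sum_congr rfl fun y _ => ?_
    ring
  rw [Finset.sum_congr rfl (fun x _ => h1 x)]
  simp only [Finset.sum_add_distrib, Finset.sum_sub_distrib]
  have h2 : ∑ x, ∑ y, ad G v x * (1 - ad G v y)
      = dg G v * ((Fintype.card V : ℤ) - dg G v) := by
    unfold dg
    rw [Finset.sum_mul]
    refine Finset.sum_congr rfl fun x _ => ?_
    rw [← Finset.mul_sum, Finset.sum_sub_distrib]
    simp
  rw [h2]

theorem id_four {V : Type} [Fintype V] (G : SimpleGraph V) (k δ h : ℤ) (v : V) :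
    (∑ x ∈ NG G v, Nx G v x) - eI G (PH G v) = (Dj k δ - psG G k h) + ev G k δ h v
      - Xv G k v * (Fintype.card V - δ - dg G v) := by
  have e1 := eI_PH_expand G v
  have e2 := sum_Nx_expand G v
  have a1 := two_c2 (Fintype.card V : ℤ)
  have a2 := two_c2 ((Fintype.card V : ℤ) - 1)
  have key : 2 * ((∑ x ∈ NG G v, Nx G v x) - eI G (PH G v))
      = 2 * ((Dj k δ - psG G k h) + ev G k δ h v
        - Xv G k v * (Fintype.card V - δ - dg G v)) := by
    unfold psG pos ev Yv Xv Dj
    linear_combination 2 * e2 - e1 - a1 + a2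
  linarith

theorem sum_dg_sq {V : Type} [Fintype V] (G : SimpleGraph V) :
    ∑ v, ∑ x, ∑ y, ad G v x * ad G x y = ∑ x, dg G x ^ 2 := by
  rw [Finset.sum_comm]
  refine Finset.sum_congr rfl fun x _ => ?_
  have h : ∀ v, ∑ y, ad G v x * ad G x y = ad G x v * dg G x := by
    intro v
    rw [← Finset.mul_sum, ad_symm G v x]
    rfl
  rw [Finset.sum_congr rfl (fun v _ => h v), ← Finset.sum_mul]
  unfold dg
  ring

theorem sum_dg {V : Type} [Fintype V] (G : SimpleGraph V) : ∑ x, dg G x = 2 * em G := by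
  rw [two_em]
  rfl

theorem sum_eI_NG {V : Type} [Fintype V] (G : SimpleGraph V) :
    ∑ v, 2 * eI G (NG G v) = 6 * tm G := by
  rw [six_tm]
  refine Finset.sum_congr rfl fun v _ => ?_
  rw [two_eI_NG]
  refine Finset.sum_congr rfl fun x _ => ?_
  refine Finset.sum_congr rfl fun y _ => ?_
  ring

theorem sum_eI_PH {V : Type} [Fintype V] (G : SimpleGraph V) :
    2 * ∑ v, eI G (PH G v) = 2 * (Fintype.card V : ℤ) * em G - 2 * (∑ x, dg G x ^ 2)
      + 6 * tm G := by
  rw [Finset.mul_sum, Finset.sum_congr rfl (fun v _ => eI_PH_expand G v),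
    Finset.sum_add_distrib, Finset.sum_sub_distrib, sum_eI_NG, ← Finset.mul_sum,
    ← Finset.mul_sum, sum_dg_sq]
  simp
  ring

theorem cost_nonneg {V : Type} [Fintype V] (G : SimpleGraph V) (k : ℤ) :
    0 ≤ (Fintype.card V : ℤ) * (Fintype.card V - k) * (Fintype.card V - k - 1)
      + (4 * k + 2 - 3 * Fintype.card V) * em G + 3 * tm G := by
  have h1 := sum_eI_PH G
  have h2 : ∑ v, Xv G k v * (Xv G k v - 1)
      = (Fintype.card V : ℤ) * (Fintype.card V - k) * (Fintype.card V - k - 1)
        - (2 * (Fintype.card V - k) - 1) * (2 * em G) + ∑ x, dg G x ^ 2 := by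
    have h : ∀ v, Xv G k v * (Xv G k v - 1)
        = ((Fintype.card V : ℤ) - k) * (Fintype.card V - k - 1)
          - (2 * (Fintype.card V - k) - 1) * dg G v + dg G v ^ 2 := by
      intro v
      unfold Xv
      ring
    rw [Finset.sum_congr rfl (fun v _ => h v), Finset.sum_add_distrib, Finset.sum_sub_distrib,
      ← Finset.mul_sum (f := fun v => dg G v), sum_dg]
    simp
    ring
  have h3 : 0 ≤ ∑ v, Xv G k v * (Xv G k v - 1) := by
    refine Finset.sum_nonneg fun v _ => ?_
    generalize Xv G k v = X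
    rcases le_or_gt X 0 with h0 | h0
    · nlinarith
    · nlinarith
  have h4 : 0 ≤ ∑ v, eI G (PH G v) := Finset.sum_nonneg fun v _ => eI_nonneg G _
  nlinarith

end Pool.Agent.Helper87.LS
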